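import Pool.Agent.W2helper42.HL.Stm
import Pool.Agent.R870.NY.Mod

/-!
# Project HL (MP_130685_nt): piece J_HECKE
-/

set_option autoImplicit false

namespace Pool.Agent.W2helper54.HL

open UpperHalfPlane H294ZP Pool.Agent.W2helper42.HL Pool.Agent.R870.NY

/-- `(a τ + b) / d` -/
noncomputable def mv (a d : ℕ) (b : ℤ) (ha : 0 < a) (hd : 0 < d) (τ : ℍ) : ℍ :=
  ⟨((a : ℂ) * τ + b) / d, by
    have h1 : (0:ℝ) < a := by exact_mod_cast ha
    have h2 : (0:ℝ) < d := by exact_mod_cast hd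
    have h3 := τ.im_pos
    have : (((a : ℂ) * τ + b) / d).im = a * τ.im / d := by
      rw [show (d : ℂ) = ((d : ℝ) : ℂ) by norm_cast, Complex.div_ofReal_im]
      simp
    rw [this]
    positivity⟩

lemma mv_mul (a d : ℕ) (b : ℤ) (ha : 0 < a) (hd : 0 < d) (τ : ℍ) :
    (mv a d b ha hd τ : ℂ) * d = a * τ + b := by
  have h2 : (d : ℂ) ≠ 0 := by exact_mod_cast hd.ne'
  show ((a : ℂ) * τ + b) / d * d = _
  field_simp

/-- the three maps -/
noncomputable def hh : Fin 3 → ℍ → ℍ := ![mv 2 1 0 (by norm_num) (by norm_num),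
  mv 1 2 0 (by norm_num) (by norm_num), mv 1 2 1 (by norm_num) (by norm_num)]

lemma hh0 (τ : ℍ) : (hh 0 τ : ℂ) = 2 * τ := by
  have := mv_mul 2 1 0 (by norm_num) (by norm_num) τ
  simpa [hh] using this

lemma hh1 (τ : ℍ) : (hh 1 τ : ℂ) * 2 = τ := by
  have := mv_mul 1 2 0 (by norm_num) (by norm_num) τ
  simpa [hh] using this

lemma hh2 (τ : ℍ) : (hh 2 τ : ℂ) * 2 = τ + 1 := by
  have := mv_mul 1 2 1 (by norm_num) (by norm_num) τ
  simpa [hh] using this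

lemma cls0 {A B C D : ℤ} (h : A * D - B * C = 2) (hA : A % 2 = 0) (hC : C % 2 = 0) {τ w : ℍ}
    (hw : (w : ℂ) * (C * τ + D) = A * τ + B) : jj w = jj (hh 0 τ) := by
  obtain ⟨a, rfl⟩ : ∃ a, A = 2 * a := ⟨A / 2, by omega⟩
  obtain ⟨c, rfl⟩ : ∃ c, C = 2 * c := ⟨C / 2, by omega⟩
  refine ta1.1 a B c D (by linarith) _ _ ?_
  rw [hh0]
  push_cast at hw
  linear_combination hw

lemma cls1 {A B C D : ℤ} (h : A * D - B * C = 2) (hB : B % 2 = 0) (hD : D % 2 = 0) {τ w : ℍ}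
    (hw : (w : ℂ) * (C * τ + D) = A * τ + B) : jj w = jj (hh 1 τ) := by
  obtain ⟨b, rfl⟩ : ∃ a, B = 2 * a := ⟨B / 2, by omega⟩
  obtain ⟨d, rfl⟩ : ∃ c, D = 2 * c := ⟨D / 2, by omega⟩
  refine ta1.1 A b C d (by linarith) _ _ ?_
  have h1 := hh1 τ
  push_cast at hw
  linear_combination (1/2) * hw + (1/2) * ((w:ℂ) * C - A) * h1

lemma cls2 {A B C D : ℤ} (h : A * D - B * C = 2) (hA : (B - A) % 2 = 0) (hC : (D - C) % 2 = 0)
    {τ w : ℍ} (hw : (w : ℂ) * (C * τ + D) = A * τ + B) : jj w = jj (hh 2 τ) := by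
  obtain ⟨b, rfl⟩ : ∃ a, B = A + 2 * a := ⟨(B - A) / 2, by omega⟩
  obtain ⟨d, rfl⟩ : ∃ c, D = C + 2 * c := ⟨(D - C) / 2, by omega⟩
  refine ta1.1 A b C d (by linarith) _ _ ?_
  have h1 := hh2 τ
  push_cast at hw
  linear_combination (1/2) * hw + (1/2) * ((w:ℂ) * C - A) * h1

lemma par2 (A B C D : ℤ) : (A * D - B * C) % 2 = ((A % 2) * (D % 2) - (B % 2) * (C % 2)) % 2 := by
  rw [Int.sub_emod, Int.mul_emod A D, Int.mul_emod B C, ← Int.sub_emod]

/-- every matrix of determinant 2 -/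
lemma cls {A B C D : ℤ} (h : A * D - B * C = 2) {τ w : ℍ}
    (hw : (w : ℂ) * (C * τ + D) = A * τ + B) : ∃ k, jj w = jj (hh k τ) := by
  have h2 := par2 A B C D
  rw [h] at h2
  rcases Int.emod_two_eq_zero_or_one A with a | a <;>
  rcases Int.emod_two_eq_zero_or_one B with b | b <;>
  rcases Int.emod_two_eq_zero_or_one C with c | c <;>
  rcases Int.emod_two_eq_zero_or_one D with d | d <;>
  first
  | exact ⟨0, cls0 h a c hw⟩
  | exact ⟨1, cls1 h b d hw⟩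
  | exact ⟨2, cls2 h (by omega) (by omega) hw⟩
  | (exfalso; simp [a, b, c, d] at h2)

/-- the three values are permuted by `SL(2, ℤ)` -/
lemma six {p q r s : ℤ} (h : p * s - q * r = 1) {τ w : ℍ}
    (hw : (w : ℂ) * (r * τ + s) = p * τ + q) :
    ∃ σ : Equiv.Perm (Fin 3), ∀ k, jj (hh k w) = jj (hh (σ k) τ) := by
  have w0 : (hh 0 w : ℂ) * ((r : ℤ) * τ + (s : ℤ)) = ((2 * p : ℤ) : ℂ) * τ + ((2 * q : ℤ) : ℂ) := by
    rw [hh0]; push_cast; linear_combination 2 * hw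
  have w1 : (hh 1 w : ℂ) * (((2 * r : ℤ) : ℂ) * τ + ((2 * s : ℤ) : ℂ)) = (p : ℤ) * τ + (q : ℤ) := by
    have := hh1 w
    push_cast; linear_combination hw + (r * τ + s) * this
  have w2 : (hh 2 w : ℂ) * (((2 * r : ℤ) : ℂ) * τ + ((2 * s : ℤ) : ℂ)) =
      ((p + r : ℤ) : ℂ) * τ + ((q + s : ℤ) : ℂ) := by
    have := hh2 w
    push_cast; linear_combination hw + (r * τ + s) * this
  have d0 : (2 * p) * s - (2 * q) * r = 2 := by linarith
  have d1 : p * (2 * s) - q * (2 * r) = 2 := by linarith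
  have d2 : (p + r) * (2 * s) - (q + s) * (2 * r) = 2 := by linarith
  have h2 := par2 p q r s
  rw [h] at h2
  have m2 : ∀ x : ℤ, (2 * x) % 2 = 0 := fun x => by omega
  have key : ∀ i j k : Fin 3, i ≠ j → i ≠ k → j ≠ k → jj (hh 0 w) = jj (hh i τ) →
      jj (hh 1 w) = jj (hh j τ) → jj (hh 2 w) = jj (hh k τ) →
      ∃ σ : Equiv.Perm (Fin 3), ∀ k, jj (hh k w) = jj (hh (σ k) τ) := by
    intro i j k h1 h2 h3 e0 e1 e2
    have hinj : Function.Injective ![i, j, k] := by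
      intro x y hxy
      fin_cases x <;> fin_cases y <;> simp_all
    refine ⟨Equiv.ofBijective _ (Finite.injective_iff_bijective.1 hinj), fun l => ?_⟩
    fin_cases l
    · exact e0
    · exact e1
    · exact e2
  rcases Int.emod_two_eq_zero_or_one p with a | a <;>
  rcases Int.emod_two_eq_zero_or_one q with b | b <;>
  rcases Int.emod_two_eq_zero_or_one r with c | c <;>
  rcases Int.emod_two_eq_zero_or_one s with d | d <;>
  first
  | (exfalso; simp [a, b, c, d] at h2; done)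
  | exact key 0 1 2 (by decide) (by decide) (by decide) (cls0 d0 (m2 _) (by omega) w0)
      (cls1 d1 (by omega) (m2 _) w1) (cls2 d2 (by omega) (by omega) w2)
  | exact key 0 2 1 (by decide) (by decide) (by decide) (cls0 d0 (m2 _) (by omega) w0)
      (cls2 d1 (by omega) (by omega) w1) (cls1 d2 (by omega) (m2 _) w2)
  | exact key 1 0 2 (by decide) (by decide) (by decide) (cls1 d0 (m2 _) (by omega) w0)
      (cls0 d1 (by omega) (m2 _) w1) (cls2 d2 (by omega) (by omega) w2)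
  | exact key 1 2 0 (by decide) (by decide) (by decide) (cls1 d0 (m2 _) (by omega) w0)
      (cls2 d1 (by omega) (by omega) w1) (cls0 d2 (by omega) (m2 _) w2)
  | exact key 2 0 1 (by decide) (by decide) (by decide) (cls2 d0 (by omega) (by omega) w0)
      (cls0 d1 (by omega) (m2 _) w1) (cls1 d2 (by omega) (m2 _) w2)
  | exact key 2 1 0 (by decide) (by decide) (by decide) (cls2 d0 (by omega) (by omega) w0)
      (cls1 d1 (by omega) (m2 _) w1) (cls0 d2 (by omega) (m2 _) w2)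

lemma L0 : Lau 2 4 1 (fun τ => jj (hh 0 τ)) ∧ Hol (fun τ => jj (hh 0 τ)) := by
  have := tc.2.2.2.2 hTA.2.1 hTA.2.2 2 1 0 (by norm_num) (by norm_num) (hh 0)
    (fun τ => by rw [hh0]; push_cast; ring)
  simpa using this

lemma L1 : Lau 2 1 1 (fun τ => jj (hh 1 τ)) ∧ Hol (fun τ => jj (hh 1 τ)) := by
  have := tc.2.2.2.2 hTA.2.1 hTA.2.2 1 2 0 (by norm_num) (by norm_num) (hh 1)
    (fun τ => by have := hh1 τ; push_cast; linear_combination this)
  simpa using this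

lemma L2 : Lau 2 1 (-1) (fun τ => jj (hh 2 τ)) ∧ Hol (fun τ => jj (hh 2 τ)) := by
  have := tc.2.2.2.2 hTA.2.1 hTA.2.2 1 2 1 (by norm_num) (by norm_num) (hh 2)
    (fun τ => by have := hh2 τ; push_cast; linear_combination this)
  have e : Complex.exp (- (2 * Real.pi * Complex.I * ((1:ℤ):ℂ) / ((2:ℕ):ℂ))) = -1 := by
    rw [show - (2 * Real.pi * Complex.I * ((1:ℤ):ℂ) / ((2:ℕ):ℂ)) = -(Real.pi * Complex.I) by
      push_cast; ring, Complex.exp_neg, Complex.exp_pi_mul_I]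
    norm_num
  rw [e] at this
  simpa using this

/-- the sum -/
lemma sumP : ∃ β γ : ℂ, IsAlgebraic ℚ β ∧ IsAlgebraic ℚ γ ∧
    ∀ τ, jj (hh 0 τ) + jj (hh 1 τ) + jj (hh 2 τ) = jj τ ^ 2 + β * jj τ + γ := by
  have n2 : 0 < 2 := by norm_num
  have a1 := tc.2.2.1 2 4 _ _ _ _ n2 L0.1 (tc.2.1 2 1 3 _ _ n2 (by norm_num) L1.1)
  have a2 := tc.2.2.1 2 4 _ _ _ _ n2 a1 (tc.2.1 2 1 3 _ _ n2 (by norm_num) L2.1)
  have a3 : Hol (fun τ => jj (hh 0 τ) + jj (hh 1 τ) + jj (hh 2 τ)) :=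
    TDaux.Hol.add (TDaux.Hol.add L0.2 L1.2) L2.2
  have a4 : H294ZP.Inv (fun τ => jj (hh 0 τ) + jj (hh 1 τ) + jj (hh 2 τ)) := by
    intro p q r s h τ w hw
    obtain ⟨σ, hσ⟩ := six h hw
    have := Equiv.sum_comp σ (fun k => jj (hh k τ))
    simp only [Fin.sum_univ_three] at this
    simp only [hσ]
    exact this
  obtain ⟨P, h1, h2, -, h3, h4⟩ := hTB 2 n2 4 _ _ a4 a3 a2
  have h4 := h4 (by norm_num)
  norm_num at h3 h4
  have alg : ∀ k, IsAlgebraic ℚ (P.coeff k) := fun k =>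
    ((h1 k).tower_top (A := ℚ)).isAlgebraic
  refine ⟨P.coeff 1, P.coeff 0, alg 1, alg 0, fun τ => ?_⟩
  rw [h2 τ, Polynomial.eval_eq_sum_range' (n := 3) (by omega)]
  simp only [Finset.sum_range_succ, Finset.sum_range_zero, h4]
  ring

/-- the discriminant -/
noncomputable def dsc (x : Fin 3 → ℂ) : ℂ :=
  (x 0 - x 1) * (x 0 - x 1) * ((x 0 - x 2) * (x 0 - x 2)) * ((x 1 - x 2) * (x 1 - x 2))

lemma dsc_perm (x : Fin 3 → ℂ) (σ : Equiv.Perm (Fin 3)) : dsc (fun k => x (σ k)) = dsc x := by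
  have h1 : σ 0 ≠ σ 1 := by simp
  have h2 : σ 0 ≠ σ 2 := by simp
  have h3 : σ 1 ≠ σ 2 := by simp
  simp only [dsc]
  generalize σ 0 = i at *
  generalize σ 1 = j at *
  generalize σ 2 = k at *
  fin_cases i <;> fin_cases j <;> fin_cases k <;> first
    | (exfalso; revert h1 h2 h3; decide)
    | (simp; try ring)

lemma dscP : ∃ R : Polynomial ℂ, R ≠ 0 ∧ (∀ k, IsIntegral ℤ (R.coeff k)) ∧
    ∀ τ, dsc (fun k => jj (hh k τ)) = R.eval (jj τ) := by
  have n2 : 0 < 2 := by norm_num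
  have neg : ∀ {m : ℕ} {A : ℂ} {f : ℍ → ℂ}, Lau 2 m A f ∧ Hol f →
      Lau 2 m (-A) (fun τ => - f τ) ∧ Hol (fun τ => - f τ) := by
    intro m A f hf
    have h1 := tc.2.2.2.1 2 0 m _ _ _ _ n2 (tc.1 2 (-1) n2 isIntegral_one.neg) hf.1
    have h2 := TDaux.Hol.mul (TDaux.Hol.const (-1)) hf.2
    simp only [neg_mul, one_mul, zero_add] at h1 h2
    exact ⟨h1, h2⟩
  have up : ∀ {A : ℂ} {f : ℍ → ℂ}, Lau 2 1 A f ∧ Hol f → Lau 2 4 0 f ∧ Hol f :=
    fun hf => ⟨tc.2.1 2 1 3 _ _ n2 (by norm_num) hf.1, hf.2⟩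
  have add : ∀ {m : ℕ} {A B : ℂ} {f g : ℍ → ℂ}, Lau 2 m A f ∧ Hol f → Lau 2 m B g ∧ Hol g →
      Lau 2 m (A + B) (fun τ => f τ + g τ) ∧ Hol (fun τ => f τ + g τ) :=
    fun hf hg => ⟨tc.2.2.1 2 _ _ _ _ _ n2 hf.1 hg.1, TDaux.Hol.add hf.2 hg.2⟩
  have mul : ∀ {m k : ℕ} {A B : ℂ} {f g : ℍ → ℂ}, Lau 2 m A f ∧ Hol f → Lau 2 k B g ∧ Hol g →
      Lau 2 (m + k) (A * B) (fun τ => f τ * g τ) ∧ Hol (fun τ => f τ * g τ) :=
    fun hf hg => ⟨tc.2.2.2.1 2 _ _ _ _ _ _ n2 hf.1 hg.1, TDaux.Hol.mul hf.2 hg.2⟩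
  have a01 := add L0 (neg (up L1))
  have a02 := add L0 (neg (up L2))
  have a12 := add L1 (neg L2)
  have a := mul (mul (mul a01 a01) (mul a02 a02)) (mul a12 a12)
  simp only [← sub_eq_add_neg] at a
  have inv : H294ZP.Inv (fun τ => dsc (fun k => jj (hh k τ))) := by
    intro p q r s h τ w hw
    obtain ⟨σ, hσ⟩ := six h hw
    show dsc (fun k => jj (hh k w)) = dsc (fun k => jj (hh k τ))
    rw [← dsc_perm (fun k => jj (hh k τ)) σ]
    congr 1
    funext k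
    exact hσ k
  obtain ⟨R, h1, h2, -, h3, h4⟩ := hTB 2 n2 _ _ _ inv a.2 a.1
  have h4 := h4 (by norm_num)
  norm_num at h4
  refine ⟨R, ?_, h1, h2⟩
  rintro rfl
  simp at h4

/-- the cubic polynomial depends only on `jj τ` -/
lemma cubic {τ τ' : ℍ} (h : jj τ = jj τ') :
    ∏ k, (Polynomial.X - Polynomial.C (jj (hh k τ))) =
      ∏ k, (Polynomial.X - Polynomial.C (jj (hh k τ'))) := by
  obtain ⟨Φ, -, -, -, hΦ⟩ := exists_mpoly (N := 2) (by norm_num) ![2, 1, 1] ![1, 2, 2]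
    ![0, 0, 1] hh (by intro k; fin_cases k <;> simp) (by
      intro k τ
      fin_cases k
      · simpa using hh0 τ
      · simpa using hh1 τ
      · simpa using hh2 τ) Finset.univ (by simp) (by
      intro p q r s h τ w hw
      obtain ⟨σ, hσ⟩ := six h hw
      rw [← Equiv.prod_comp σ (fun k => (Polynomial.X - Polynomial.C (jj (hh k τ))))]
      exact Finset.prod_congr rfl fun k _ => by rw [hσ k])
  rw [← hΦ, ← hΦ, h]

lemma cyc_mem {τ : ℍ} {y : ℂ} (h : Cyc 2 (jj τ) y) : ∃ k, y = jj (hh k τ) := by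
  obtain ⟨a, b, c, d, τ', w, h1, -, h2, h3, h4⟩ := h
  obtain ⟨k, hk⟩ := cls (by exact_mod_cast h1) h2
  have h5 := cubic h3
  have h6 := congrArg (Polynomial.eval y) h5
  rw [Polynomial.eval_prod, Polynomial.eval_prod, Finset.prod_eq_zero (Finset.mem_univ k)
    (by rw [← h4, hk]; simp)] at h6
  obtain ⟨l, -, hl⟩ := Finset.prod_eq_zero_iff.1 h6.symm
  refine ⟨l, ?_⟩
  rw [Polynomial.eval_sub, Polynomial.eval_X, Polynomial.eval_C] at hl
  linear_combination hl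

lemma prim {a b c d : ℤ} (h : a = 1 ∨ b = 1 ∨ c = 1 ∨ d = 1) :
    ∀ g : ℤ, g ∣ a → g ∣ b → g ∣ c → g ∣ d → IsUnit g := by
  intro g h1 h2 h3 h4
  rcases h with rfl | rfl | rfl | rfl
  · exact isUnit_of_dvd_one h1
  · exact isUnit_of_dvd_one h2
  · exact isUnit_of_dvd_one h3
  · exact isUnit_of_dvd_one h4

lemma cyc_hh (τ : ℍ) (k : Fin 3) : Cyc 2 (jj τ) (jj (hh k τ)) := by
  fin_cases k
  · refine ⟨2, 0, 0, 1, τ, hh 0 τ, by norm_num, prim (by simp), ?_, rfl, rfl⟩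
    rw [hh0]; push_cast; ring
  · refine ⟨1, 0, 0, 2, τ, hh 1 τ, by norm_num, prim (by simp), ?_, rfl, rfl⟩
    have := hh1 τ
    push_cast; linear_combination this
  · refine ⟨1, 1, 0, 2, τ, hh 2 τ, by norm_num, prim (by simp), ?_, rfl, rfl⟩
    have := hh2 τ
    push_cast; linear_combination this

lemma alg_root (R : Polynomial ℂ) (hR : R ≠ 0) (hc : ∀ k, IsAlgebraic ℚ (R.coeff k)) (x : ℂ)
    (hx : R.eval x = 0) : IsAlgebraic ℚ x := by
  let K := algebraicClosure ℚ ℂ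
  have h1 : R ∈ Polynomial.lifts (algebraMap K ℂ) := by
    rw [Polynomial.lifts_iff_coeff_lifts]
    intro k
    exact ⟨⟨R.coeff k, (mem_algebraicClosure_iff).2 (hc k)⟩, rfl⟩
  obtain ⟨Q, hQ⟩ := h1
  have h2 : IsAlgebraic K x := by
    refine ⟨Q, ?_, ?_⟩
    · rintro rfl
      apply hR
      rw [← hQ]
      simp
    · rw [Polynomial.aeval_def, ← Polynomial.eval_map]
      have : Polynomial.map (algebraMap K ℂ) Q = R := hQ
      rw [this, hx]
  have : Algebra.IsAlgebraic ℚ K := algebraicClosure.isAlgebraic ℚ ℂ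
  exact h2.restrictScalars ℚ

/-- J_HECKE -/
theorem j_hecke (h1 : J_SURJ) : J_HECKE := by
  obtain ⟨β, γ, hβ, hγ, hs⟩ := sumP
  obtain ⟨R, hR0, hRi, hR⟩ := dscP
  refine ⟨β, γ, hβ, hγ, fun u => ?_, fun u v hv hinj => ?_⟩
  · obtain ⟨τ, rfl⟩ := h1 u
    refine ⟨fun k => jj (hh k τ), fun l => cyc_hh τ l, hs τ, fun htr => ?_⟩
    by_contra hn
    have h0 : dsc (fun k => jj (hh k τ)) = 0 := by
      by_contra h0
      apply hn
      have e1 : jj (hh 0 τ) ≠ jj (hh 1 τ) := fun e => h0 (by simp [dsc, e])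
      have e2 : jj (hh 0 τ) ≠ jj (hh 2 τ) := fun e => h0 (by simp [dsc, e])
      have e3 : jj (hh 1 τ) ≠ jj (hh 2 τ) := fun e => h0 (by simp [dsc, e])
      intro i j hij
      fin_cases i <;> fin_cases j <;> simp_all
    apply htr
    rw [hR τ] at h0
    exact alg_root R hR0 (fun k => ((hRi k).tower_top (A := ℚ)).isAlgebraic) _ h0
  · obtain ⟨τ, rfl⟩ := h1 u
    choose f hf using fun l => cyc_mem (hv l)
    have hfi : Function.Injective f := by
      intro i j hij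
      apply hinj
      rw [hf i, hf j, hij]
    have := Equiv.sum_comp (Equiv.ofBijective f (Finite.injective_iff_bijective.1 hfi))
      (fun k => jj (hh k τ))
    simp only [Fin.sum_univ_three, Equiv.ofBijective_apply] at this
    rw [hf 0, hf 1, hf 2, this, hs τ]

end Pool.Agent.W2helper54.HL
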