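import Pool.Agent.W2helper42.HL.Stm

/-!
# Project HL (MP_130685_nt): piece R_LAM
-/

set_option autoImplicit false

namespace Pool.Agent.W2helper54.HL

open UpperHalfPlane H294ZP MvPolynomial Pool.Agent.W2helper42.HL

/-- algebraic numbers are in `K` -/
lemma mem_of_alg {K : Subfield ℂ} (hK : Gd K) {z : ℂ} (hz : IsAlgebraic ℚ z) : z ∈ K := by
  have := hK.2
  have h1 : IsAlgebraic K z := hz.tower_top (K := ℚ) (L := K)
  have h2 : IsIntegral K z := h1.isIntegral
  have h3 := minpoly.irreducible h2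
  have h4 := IsAlgClosed.degree_eq_one_of_irreducible K h3
  rw [minpoly.degree_eq_one_iff] at h4
  obtain ⟨y, hy⟩ := h4
  rw [← hy]
  exact y.2

/-- isogenous numbers are algebraic over each other -/
lemma isog_alg (hJ : J_POLY) {A : Type} [CommRing A] [Nontrivial A] [Algebra A ℂ]
    (hA : ∀ z : ℂ, IsAlgebraic ℚ z → z ∈ (algebraMap A ℂ).range) {x y : ℂ}
    (hx : x ∈ (algebraMap A ℂ).range) (h : Isog x y) : IsAlgebraic A y := by
  obtain ⟨N, hN, hc⟩ := h
  obtain ⟨Φ, hm, hco, hev⟩ := hJ N hN
  have h1 := (hev x y).2 hc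
  have hmon : (Φ.map (Polynomial.evalRingHom x)).Monic := hm.map _
  have hl : Φ.map (Polynomial.evalRingHom x) ∈ Polynomial.lifts (algebraMap A ℂ) := by
    rw [Polynomial.lifts_iff_coeff_lifts]
    intro n
    rw [Polynomial.coeff_map]
    have : (Polynomial.evalRingHom x) (Φ.coeff n) ∈ (algebraMap A ℂ).range := by
      rw [Polynomial.coe_evalRingHom, Polynomial.eval_eq_sum_range]
      refine Subring.sum_mem _ fun i _ => ?_
      exact Subring.mul_mem _ (hA _ (hco n i)) (Subring.pow_mem _ hx i)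
    exact this
  obtain ⟨q, hq, -, hqm⟩ := Polynomial.lifts_and_natDegree_eq_and_monic hl hmon
  refine ⟨q, hqm.ne_zero, ?_⟩
  rw [Polynomial.aeval_def, ← Polynomial.eval_map, hq]
  exact h1

/-- polynomials with coefficients in `K` -/
lemma lift_poly {ι : Type} {K : Subfield ℂ} (f : MvPolynomial ι ℂ) (h : ∀ m, f.coeff m ∈ K) :
    ∃ g : MvPolynomial ι K, ∀ x : ι → ℂ, aeval x g = eval x f := by
  have h1 : f ∈ Set.range (MvPolynomial.map (σ := ι) (algebraMap K ℂ)) := by
    rw [MvPolynomial.mem_range_map_iff_coeffs_subset]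
    intro c hc
    rw [MvPolynomial.coeffs, Finset.mem_coe, Finset.mem_image] at hc
    obtain ⟨m, -, rfl⟩ := hc
    exact ⟨⟨_, h m⟩, rfl⟩
  obtain ⟨g, hg⟩ := h1
  refine ⟨g, fun x => ?_⟩
  rw [← hg, MvPolynomial.aeval_def, MvPolynomial.eval_map]

theorem r_lam (hJ : JF) (hA : AF) (_hS : SF) (hR : R_MAIN) : R_LAM := by
  obtain ⟨hJp, hJr, -⟩ := hJ
  obtain ⟨-, -, -, -, hle, hge, hnew⟩ := hA
  intro ι _ J k f hEv
  classical
  set S : Set ℂ := ⋃ j : Fin J, Set.range fun m => (f j).coeff m with hSdef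
  refine hR ι (Fin k × Fin J) (Fin k × Fin J) _ _ k k (k * J) id ∅ (fun _ => True) S
    (Set.countable_iUnion fun j => Set.countable_range _) ?_ (fun j => Or.inl ⟨j, rfl⟩)
    (fun p hp => absurd hp (Finset.notMem_empty p)) ?_ hEv
  · simp [Nat.card_eq_fintype_card]
  intro K hK hSK
  have hco : ∀ j m, (f j).coeff m ∈ K := fun j m =>
    hSK (Set.mem_iUnion.2 ⟨j, ⟨m, rfl⟩⟩)
  have halg : ∀ z : ℂ, IsAlgebraic ℚ z → z ∈ K := fun z hz => mem_of_alg hK hz
  choose g hg using fun j => lift_poly (f j) (hco j)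
  refine ⟨?_, fun _ _ _ _ => trivial, ?_, ?_⟩
  · -- closed
    refine ⟨Set.range fun i : Fin k => ∑ j : Fin J,
      X (Sum.inr (i, j)) * rename Sum.inl (g j), ?_⟩
    ext z
    simp only [Set.mem_ofPred_eq, Set.forall_mem_range, map_sum, map_mul, aeval_X, aeval_rename]
    refine forall_congr' fun i => ?_
    have : ∀ j : Fin J, aeval (z ∘ Sum.inl) (g j) = eval (fun s => z (Sum.inl s)) (f j) :=
      fun j => hg j _
    simp only [this]
  · -- new coordinates
    intro a ha
    obtain ⟨t, ht⟩ := hnew ι K hK a (k * J)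
    set w : Fin k × Fin J → ℂ := fun p => t (finProdFinEquiv p) with hw
    have hwi : AlgebraicIndependent (fld K a) w := ht.comp _ finProdFinEquiv.injective
    have hKL : ∀ z : ℂ, z ∈ K → z ∈ fld K a := fun z hz =>
      (fld K a).algebraMap_mem ⟨z, hz⟩
    have h0 : ∀ z : ℂ, IsAlgebraic ℚ z → z ∈ (algebraMap (fld K a) ℂ).range := fun z hz =>
      ⟨⟨z, hKL z (halg z hz)⟩, rfl⟩
    refine ⟨w, ?_, fun p hp => absurd hp (Finset.notMem_empty p), trivial, ?_, ?_, ?_, ?_⟩
    · intro i
      refine Finset.sum_eq_zero fun j _ => ?_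
      have h1 : eval (fun s => (Sum.elim a w : ι ⊕ (Fin k × Fin J) → ℂ) (Sum.inl s)) (f j) = 0 :=
        ha j
      rw [h1, mul_zero]
    · refine hge ι _ K a w (k * J) t ht fun j => ?_
      have : t j = Sum.elim a w (Sum.inr (finProdFinEquiv.symm j)) := by
        show t j = t (finProdFinEquiv (finProdFinEquiv.symm j))
        rw [Equiv.apply_symm_apply]
      rw [this]
      exact IntermediateField.subset_adjoin _ _ ⟨_, rfl⟩
    · intro l hl
      have h1 : IsAlgebraic ℚ (w l) := hJr.2.2.2.2.2 _ hl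
      refine hwi.transcendental l ?_
      obtain ⟨y, hy⟩ := h0 _ h1
      rw [← hy]
      exact isAlgebraic_algebraMap y
    · intro l l' hll hi
      have h1 := hwi.transcendental_adjoin (s := {l}) (i := l') (by
        simpa using fun h => hll h.symm)
      refine h1 ?_
      have h2 : ∀ z : ℂ, z ∈ fld K a →
          z ∈ (algebraMap (Algebra.adjoin (fld K a) (w '' {l})) ℂ).range := fun z hz =>
        ⟨algebraMap (fld K a) _ ⟨z, hz⟩, rfl⟩
      refine isog_alg hJp (A := Algebra.adjoin (fld K a) (w '' {l}))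
        (fun z hz => h2 z (hKL z (halg z hz))) ?_ hi
      exact ⟨⟨w l, Algebra.subset_adjoin ⟨l, rfl, rfl⟩⟩, rfl⟩
    · intro i l hi
      refine hwi.transcendental l ?_
      refine isog_alg hJp (A := fld K a) h0 ?_ hi
      exact ⟨⟨a i, IntermediateField.subset_adjoin _ _ ⟨i, rfl⟩⟩, rfl⟩
  · -- converse
    intro x v hz _ _
    by_cases hx : ∀ j, eval x (f j) = 0
    · left
      refine ⟨hx, ?_⟩
      refine hle ι _ K x v (k * J) (fun m => v (finProdFinEquiv.symm m)) fun j => ?_
      have hm : v j ∈ fld K (Sum.elim x fun m => v (finProdFinEquiv.symm m)) := by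
        refine IntermediateField.subset_adjoin _ _ ⟨Sum.inr (finProdFinEquiv j), ?_⟩
        show v (finProdFinEquiv.symm (finProdFinEquiv j)) = v j
        rw [Equiv.symm_apply_apply]
      exact isAlgebraic_algebraMap (⟨v j, hm⟩ : fld K (Sum.elim x _))
    · right
      push Not at hx
      obtain ⟨j0, hj0⟩ := hx
      obtain ⟨J', rfl⟩ : ∃ J', J = J' + 1 := ⟨J - 1, by have := j0.2; omega⟩
      set t : Fin (k * J') → ℂ := fun m =>
        v ((finProdFinEquiv.symm m).1, j0.succAbove (finProdFinEquiv.symm m).2) with ht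
      set L := fld K (Sum.elim x t) with hL
      have hxL : ∀ s, x s ∈ L := fun s =>
        IntermediateField.subset_adjoin _ _ ⟨Sum.inl s, rfl⟩
      have htL : ∀ (i : Fin k) (j : Fin J'), v (i, j0.succAbove j) ∈ L := fun i j => by
        refine IntermediateField.subset_adjoin _ _ ⟨Sum.inr (finProdFinEquiv (i, j)), ?_⟩
        show v ((finProdFinEquiv.symm (finProdFinEquiv (i, j))).1,
          j0.succAbove (finProdFinEquiv.symm (finProdFinEquiv (i, j))).2) = _
        rw [Equiv.symm_apply_apply]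
      have hfL : ∀ j, eval x (f j) ∈ L := fun j => by
        rw [← hg j x, MvPolynomial.aeval_def, MvPolynomial.eval₂_eq]
        refine sum_mem fun d _ => mul_mem (L.algebraMap_mem _) (prod_mem fun s _ => pow_mem (hxL s) _)
      have hvL : ∀ p, v p ∈ L := by
        rintro ⟨i, j⟩
        rcases Fin.eq_self_or_eq_succAbove j0 j with h | ⟨j', rfl⟩
        · subst h
          have h1 := hz i
          rw [Fin.sum_univ_succAbove _ j] at h1
          have h2 : v (i, j) = - (∑ j' : Fin J', v (i, j.succAbove j') * eval x (f (j.succAbove j')))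
              / eval x (f j) := by
            rw [eq_div_iff hj0]
            have h3 : v (i, j) * eval x (f j) +
              ∑ j' : Fin J', v (i, j.succAbove j') * eval x (f (j.succAbove j')) = 0 := h1
            linear_combination h3
          rw [h2]
          exact div_mem (neg_mem (sum_mem fun j' _ => mul_mem (htL i j') (hfL _))) (hfL j)
        · exact htL i j'
      have h1 := hle ι _ K x v (k * J') t fun p =>
        isAlgebraic_algebraMap (⟨v p, hvL p⟩ : L)
      have : k * (J' + 1) = k * J' + k := by ring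
      omega

end Pool.Agent.W2helper54.HL
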